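import Pool.Agent.Zk38.Tame.Asm

/-!
# Representations of rank two, trivial modulo `p` on inertia, for most `k`-tuples of primes

Theorem. Let `k ≥ 0` and `δ > 0`. For all large primes `p` the following holds. For all primes
`q₁ ≡ 1 mod p` but a proportion of at most `δ`, …, for all primes `q_k ≡ 1 mod p` but a proportion of
at most `δ`, every continuous representation `Gal(ℚbar/ℚ) → GL_2(A)`, where `A` is any Noetherian
local ring of residue characteristic `p`, which is unramified outside `q₁, …, q_k` and primes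
`≢ 0, 1 mod p`, and trivial modulo `p` on the inertia groups, has finite image, and is trivial if
`p ^ 2 a = 0` implies `p a = 0` in `A` (for example if `p` is not a zero divisor in `A`).

More precisely, for every `k` there is a nonzero integral polynomial `P` in the linking numbers
`λ i j`, `i ≠ j`, and the levels `u i`, which does not depend on `p`, such that `P(λ, u) ≠ 0` in
`ℤ/p` implies the statement for the representations trivial modulo `p ^ m` on inertia which are
ramified at `k` primes with `p ^ m ∥ q - 1` (and primes with `p ^ m ∤ q - 1`), for all `p > 2`,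
`m ≥ 1`.

For `k = 4` (and for representations of all dimensions) this is `MP_f68ac8_nt.FourPrimes`. The proof
is different: see `RankTwoMostTuples`. The statement there requires that inertia acts unipotently or
that `GL_2(A)` has no elements of order `p`, but not that inertia is trivial modulo `p`.
-/

set_option autoImplicit false

open NumberField IsLocalRing

namespace Pool.Agent.Results.MP_924d78_nt.CongruenceMostTuples

open Finset
open Pool.Agent.Zk38.Tame (Bad Most)
open Pool.Agent.W569.TG (lk)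

/-- the absolute Galois group of `ℚ`, with the Krull topology -/
abbrev AbsGal : Type := Gal(AlgebraicClosure ℚ/ℚ)

/-- `τ` lies in the inertia group at the ideal `P` of the ring of all algebraic integers. -/
def InInertia (P : Ideal (𝓞 (AlgebraicClosure ℚ))) (τ : AbsGal) : Prop :=
  ∀ x : 𝓞 (AlgebraicClosure ℚ), τ • x - x ∈ P

/-- `LevelTrivial p m S`: let `A` be a Noetherian local ring of residue characteristic `p`, with its
adic topology, and `ρ` a continuous representation of the absolute Galois group of `ℚ` in `GL_2(A)`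
which is trivial on the inertia groups at all maximal ideals which contain no `l ∈ S`, and such that the
entries of `ρ τ - 1` are divisible by `p ^ m` for `τ` in the other inertia groups. Then the image of
`ρ` is finite, and `ρ` is trivial if `p ^ (m + 1) a = 0` implies `p ^ m a = 0` in `A`. -/
def LevelTrivial (p m : ℕ) (S : Finset ℕ) : Prop :=
  ∀ (A : Type) [CommRing A] [IsLocalRing A] [IsNoetherianRing A] [TopologicalSpace A],
    IsAdic (maximalIdeal A) → (p : A) ∈ maximalIdeal A →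
    ∀ ρ : AbsGal →* GL (Fin 2) A, Continuous ρ →
      (∀ P : Ideal (𝓞 (AlgebraicClosure ℚ)), P.IsMaximal →
        (∀ l ∈ S, (l : 𝓞 (AlgebraicClosure ℚ)) ∉ P) → ∀ τ, InInertia P τ → ρ τ = 1) →
      (∀ P : Ideal (𝓞 (AlgebraicClosure ℚ)), P.IsMaximal →
        (∃ l ∈ S, (l : 𝓞 (AlgebraicClosure ℚ)) ∈ P) → ∀ τ, InInertia P τ →
          ∀ i j, (p : A) ^ m ∣ ((ρ τ : Matrix (Fin 2) (Fin 2) A) - 1) i j) →
      (Set.range ρ).Finite ∧
        ((∀ a : A, (p : A) ^ (m + 1) * a = 0 → (p : A) ^ m * a = 0) → ∀ g, ρ g = 1)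

/-- `TameTrivial p T`: `LevelTrivial p 1 S` holds for all finite sets `S` of prime numbers `l ≠ p`
whose members congruent to `1` modulo `p` are in `T`. -/
def TameTrivial (p : ℕ) (T : Set ℕ) : Prop :=
  ∀ S : Finset ℕ, (∀ l ∈ S, l.Prime ∧ l ≠ p) → (∀ l ∈ S, p ∣ l - 1 → l ∈ T) → LevelTrivial p 1 S

/-- The linking number `λ l j` of the distinct primes `l` and `j`: the value of the homomorphism
`χ j : (ℤ/j)ˣ → ℤ/p` at the class of `l` (and `0` if `j` divides `l`, in particular if `l = j`). -/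
noncomputable def linking {p : ℕ} (χ : ∀ j : ℕ, (ZMod j)ˣ →* Multiplicative (ZMod p))
    (l j : ℕ) : ZMod p :=
  open Classical in if h : Nat.Coprime l j then
    Multiplicative.toAdd (χ j (ZMod.unitOfCoprime l h)) else 0

/-- The pairs `(i, j)`, `i ≠ j`, and the indices `i`. -/
abbrev Variables (k : ℕ) : Type := {x : Fin k × Fin k // x.1 ≠ x.2} ⊕ Fin k

/-- The linking numbers `λ i j`, `i ≠ j`, of the primes `q i` and the classes `u i` of
`(q i - 1) / p ^ m` modulo `p`. -/
noncomputable def numbers {p k : ℕ} (m : ℕ) (χ : ∀ j : ℕ, (ZMod j)ˣ →* Multiplicative (ZMod p))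
    (q : Fin k → ℕ) : Variables k → ZMod p :=
  Sum.elim (fun x => linking χ (q x.1.1) (q x.1.2)) fun i => (((q i - 1) / p ^ m : ℕ) : ZMod p)

/-- `Criterion k P`: let `p > 2` be a prime, `m ≥ 1`, and `S` a finite set of prime numbers `l ≠ p`
with `p ^ (m + 1) ∤ l - 1`, and let `q i`, `i < k`, be distinct primes such that all `l ∈ S` with
`p ^ m ∣ l - 1` are among them. If the value of `P` at the linking numbers and the
`(q i - 1) / p ^ m` is not zero in `ℤ/p`, for nontrivial homomorphisms `χ l`, then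
`LevelTrivial p m S` holds. -/
def Criterion (k : ℕ) (P : MvPolynomial (Variables k) ℤ) : Prop :=
  ∀ (p : ℕ) [Fact p.Prime], 2 < p → ∀ m : ℕ, 1 ≤ m → ∀ S : Finset ℕ,
    (∀ l ∈ S, l.Prime ∧ l ≠ p ∧ ¬ p ^ (m + 1) ∣ l - 1) → ∀ q : Fin k → ℕ, Function.Injective q →
    (∀ i, (q i).Prime) → (∀ l ∈ S, p ^ m ∣ l - 1 → ∃ i, l = q i) →
    ∀ χ : ∀ j : ℕ, (ZMod j)ˣ →* Multiplicative (ZMod p), (∀ l ∈ S, p ∣ l - 1 → ∃ x, χ l x ≠ 1) →
    MvPolynomial.aeval (numbers m χ q) P ≠ 0 → LevelTrivial p m S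

theorem level_of {p : ℕ} [Fact p.Prime] {m : ℕ} (hm : 1 ≤ m) (hp2 : 2 < p) (S : Finset ℕ)
    (hS : ∀ l ∈ S, l.Prime ∧ l ≠ p ∧ ¬ p ^ (m + 1) ∣ l - 1)
    (χ : ∀ j : ℕ, (ZMod j)ˣ →* Multiplicative (ZMod p)) (hχ : ∀ l ∈ S, p ∣ l - 1 → ∃ x, χ l x ≠ 1)
    {r : ℕ} (l : Fin r → ℕ) (hli : Function.Injective l)
    (hl : ∀ q ∈ S, p ^ m ∣ q - 1 → q ∈ Set.range l)
    (h : N829.QD.NoSol 2 (fun i j => lk χ (l i) (l j))
      (fun i => (((l i - 1) / p ^ m : ℕ) : ZMod p))) :
    LevelTrivial p m S := by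
  intro A _ _ _ _ hA hpA ρ hρ hur hI
  exact Pool.Agent.Results.MP_924d78_nt.AllDimensions.result p m 2
    (lt_of_lt_of_le hp2 (Nat.le_self_pow (by omega) p)) S hS χ hχ
    (fun J hJ hJ1 hJ3 _ => N829.QD.noTuple_of m χ l hli h J
      (fun q hq => hl q (hJ hq) (hJ1 q hq)) (card_pos.1 (by omega)))
    A hA hpA ρ hρ (fun P hP hSP τ hτ => hur P hP hSP τ hτ)
    (fun P hP hSP τ hτ i j => hI P hP hSP τ hτ i j)

theorem good_of {p : ℕ} [Fact p.Prime] (hp2 : 2 < p) {k : ℕ}
    (χ : ∀ j : ℕ, (ZMod j)ˣ →* Multiplicative (ZMod p))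
    (l : Fin k → ℕ) (hli : Function.Injective l) (hχ : ∀ i, ∃ x, χ (l i) x ≠ 1)
    (hG : ¬ Bad k (N829.QD.dat χ l)) : TameTrivial p (Set.range l) := by
  have hp : p.Prime := Fact.out
  unfold Bad at hG
  push Not at hG
  obtain ⟨g1, g2, -, -⟩ := hG
  have hsq : ∀ q ∈ Set.range l, ¬ p ^ 2 ∣ q - 1 := by
    rintro q ⟨i, rfl⟩ h
    apply g1 i
    show (((l i - 1) / p : ℕ) : ZMod p) = 0
    rw [ZMod.natCast_eq_zero_iff]
    obtain ⟨m, hm⟩ := h
    refine ⟨m, ?_⟩
    rw [hm, pow_two, mul_assoc, Nat.mul_div_cancel_left _ hp.pos]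
  intro S hS hT
  have hS' : ∀ q ∈ S, q.Prime ∧ q ≠ p ∧ ¬ p ^ (1 + 1) ∣ q - 1 := by
    intro q hq
    refine ⟨(hS q hq).1, (hS q hq).2, fun h => ?_⟩
    exact hsq q (hT q hq ((dvd_pow_self p two_ne_zero).trans h)) h
  refine level_of le_rfl hp2 S hS' χ (fun q hq hpq => ?_) l hli
    (fun q hq h => hT q hq (by simpa using h)) ?_
  · obtain ⟨i, rfl⟩ := hT q hq hpq
    exact hχ i
  · have e : (fun i => (((l i - 1) / p ^ 1 : ℕ) : ZMod p)) =
        fun i => (((l i - 1) / p : ℕ) : ZMod p) := by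
      funext i
      rw [pow_one]
    rw [e]
    exact Zk38.Tame.noSol_two hp2 g2 g1

/-- **Most `k`-tuples of tame primes, representations trivial modulo `p` on inertia.** For every `k`
there is a nonzero integral polynomial `P` such that `Criterion k P` holds; and for every `δ > 0` and
all large `p` the statement `TameTrivial` holds for all `k`-tuples of primes `≡ 1 mod p` but a
proportion of `δ`. -/
theorem result (k : ℕ) :
    (∃ P : MvPolynomial (Variables k) ℤ, P ≠ 0 ∧ Criterion k P) ∧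
    ∀ δ : ℝ, 0 < δ → ∃ p₀ : ℕ, ∀ (p : ℕ) [Fact p.Prime], p₀ ≤ p →
      Most p δ (TameTrivial p) k ∅ := by
  obtain ⟨P, hP0, hP⟩ := Zk38.Tame.alg_poly k
  refine ⟨⟨P, hP0, ?_⟩, fun δ hδ => ?_⟩
  · intro p _ hp2 m hm S hS q hq hqp hSq χ hχ hne
    obtain ⟨a1, a2, -, -⟩ := hP p (fun i j => lk χ (q i) (q j))
      (fun i => (((q i - 1) / p ^ m : ℕ) : ZMod p)) (fun i => N829.QD.lk_self χ (hqp i)) hne
    refine level_of hm hp2 S hS χ hχ q hq (fun l hl h => ?_) (Zk38.Tame.noSol_two hp2 a2 a1)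
    obtain ⟨i, hi⟩ := hSq l hl h
    exact ⟨i, hi.symm⟩
  · exact Zk38.Tame.most hP0 hP TameTrivial
      (fun p _ hp2 χ k l hli _ hχ hb => good_of hp2 χ l hli hχ hb) δ hδ

end Pool.Agent.Results.MP_924d78_nt.CongruenceMostTuples
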