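import Pool.Agent.Zk38.Tame.Asm

/-!
# Tame representations of rank two for most `k`-tuples of primes

For `k ≥ 4` primes `q ≡ 1 mod p` the Galois group of the maximal `p`-extension of `ℚ` unramified
outside these primes is infinite (Golod and Shafarevich).

Theorem. Let `k ≥ 0` and `δ > 0`. For all large primes `p` the following holds. For all primes
`q₁ ≡ 1 mod p` but a proportion of at most `δ`, for all primes `q₂ ≡ 1 mod p` but a proportion of at
most `δ`, …, for all primes `q_k ≡ 1 mod p` but a proportion of at most `δ`, the set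
`T = {q₁, …, q_k}` has the following property `TameRankTwo p T`. Let `A` be a Noetherian local ring
with finite residue field of characteristic `p` with its adic topology, and let
`ρ : Gal(ℚbar/ℚ) → GL_2(A)` be continuous, unramified outside `T` and (finitely many) primes
`≢ 0, 1 mod p`, and unipotent modulo the maximal ideal.

* If `p` is nilpotent in `A`, for example if `A` has characteristic `p`, then `ρ` has finite image
  modulo the nilradical of `A`.
* If `p` is not a zero divisor in `A`, then `ρ` is trivial if the inertia groups at the primes in `T`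
  act unipotently, or if `A` is a domain and `GL_2(A)` has no elements of order `p`, for example if
  `A` is a discrete valuation ring in which `p` has valuation `e` and `p - 1` does not divide `2 e`.

More precisely, for every `k` there is a nonzero integral polynomial `P` in the linking numbers
`λ i j`, `i ≠ j`, and the levels `u i = (q i - 1) / p`, which does not depend on `p`, such that
`P(λ, u) ≠ 0` in `ℤ/p` implies `TameRankTwo p {q 1, …, q k}`, for all `p > 2`.

Proof. By `NoetherianCoefficients` it suffices that over every field `K` of characteristic `p` the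
matrices `M i` in `M_2(K)` with `M i ^ 2 = 0` and `[∑ λ i j M j, M i] = u i M i` satisfy
`M i * M j = 0` for all `i, j`, and that the same is true for `u = 0`. Suppose that there is a field
`K` of characteristic zero in which the `λ i j` are algebraically independent over `ℚ(u)`, and other
solutions. After a conjugation `M i = c i (z i, - z i ^ 2; 1, - z i)` for `M i ≠ 0`, and the equations
are `∑ λ i j c j (z i - z j) = u i / 2` and `∑ λ i j c j (z i - z j) ^ 2 = 0`. If there are three
different `z i`, then for each `i` two of the `λ i j` can be expressed by the others, `u i` and the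
`c j` and `z j - z 1`, and these are fewer than there are equations; if there are only two different
`z i`, then for each `i` one of the `λ i j` can be expressed by the others and the `c j / c 1`. This
contradicts the independence. Hence there is `P` as above. By Schwartz-Zippel the proportion of the
systems with `P = 0` is `O(1/p)`, and the linking numbers of a new prime with the given ones are
equidistributed up to scaling (`Pool.Agent.Q202.QT.densN`, Chebotarev).
-/

set_option autoImplicit false

open NumberField IsLocalRing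

namespace Pool.Agent.Results.MP_924d78_nt.RankTwoMostTuples

open Finset
open Pool.Agent.Zk38.Tame (Bad Most)

/-- the absolute Galois group of `ℚ`, with the Krull topology -/
abbrev AbsGal : Type := Gal(AlgebraicClosure ℚ/ℚ)

/-- `τ` lies in the inertia group at the ideal `P` of the ring of all algebraic integers. -/
def InInertia (P : Ideal (𝓞 (AlgebraicClosure ℚ))) (τ : AbsGal) : Prop :=
  ∀ x : 𝓞 (AlgebraicClosure ℚ), τ • x - x ∈ P

section
variable {A : Type} [CommRing A]

/-- `ρ` is trivial on the inertia groups at all maximal ideals which contain no `l ∈ S`. -/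
def UnramifiedOutside (S : Finset ℕ) (ρ : AbsGal →* GL (Fin 2) A) : Prop :=
  ∀ P : Ideal (𝓞 (AlgebraicClosure ℚ)), P.IsMaximal →
    (∀ l ∈ S, (l : 𝓞 (AlgebraicClosure ℚ)) ∉ P) → ∀ τ, InInertia P τ → ρ τ = 1

/-- Every `ρ g` is unipotent modulo the maximal ideal: some power of `ρ g - 1` has all entries in
the maximal ideal. -/
def ResiduallyUnipotent [IsLocalRing A] (ρ : AbsGal →* GL (Fin 2) A) : Prop :=
  ∀ g, ∃ M : ℕ, ∀ i j, (((ρ g : Matrix (Fin 2) (Fin 2) A) - 1) ^ M) i j ∈ maximalIdeal A

/-- `(ρ τ - 1) ^ 2 = 0` for all `τ` in the inertia groups at the maximal ideals which contain some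
`l ∈ S` with `p ∣ l - 1`. -/
def UnipotentInertia (p : ℕ) (S : Finset ℕ) (ρ : AbsGal →* GL (Fin 2) A) : Prop :=
  ∀ l ∈ S, p ∣ l - 1 → ∀ P : Ideal (𝓞 (AlgebraicClosure ℚ)), P.IsMaximal →
    (l : 𝓞 (AlgebraicClosure ℚ)) ∈ P → ∀ τ, InInertia P τ →
      ((ρ τ : Matrix (Fin 2) (Fin 2) A) - 1) ^ 2 = 0

/-- `ρ` has finite image modulo the nilradical of `A`, and finite image if `A` is reduced. -/
def FiniteModNilradical (ρ : AbsGal →* GL (Fin 2) A) : Prop :=
  (Set.range fun g => Matrix.GeneralLinearGroup.map (Ideal.Quotient.mk (nilradical A))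
    (ρ g)).Finite ∧ (IsReduced A → (Set.range ρ).Finite)

end

/-- `A` is a domain and `GL_2(A)` has no elements of order `p`; or `A` is a discrete valuation ring
in which `p` has valuation `e`, where `p - 1` does not divide `2 e`. -/
def NoTorsion (p : ℕ) (A : Type) [CommRing A] [IsLocalRing A] : Prop :=
  (IsDomain A ∧ ∀ M : Matrix (Fin 2) (Fin 2) A, M ^ p = 1 → M = 1) ∨
    ∃ (_ : IsDomain A) (_ : IsDiscreteValuationRing A) (e : ℕ), (p : A) ∈ maximalIdeal A ^ e ∧
      (p : A) ∉ maximalIdeal A ^ (e + 1) ∧ ¬ (p - 1) ∣ 2 * e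

/-- `TameRankTwo p T`: for all finite sets `S` of primes `l ≠ p` whose members congruent to `1`
modulo `p` are in `T`, all Noetherian local rings `A` with finite residue field of characteristic
`p` and all continuous `ρ : Gal(ℚbar/ℚ) → GL_2(A)`, unramified outside `S` and unipotent modulo the
maximal ideal: if `p` is nilpotent in `A` then `ρ` has finite image modulo the nilradical; if `p` is
not a zero divisor in `A`, and the inertia groups at the primes in `S` congruent to `1` modulo `p`
act unipotently or `NoTorsion p A` holds, then `ρ` is trivial. -/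
def TameRankTwo (p : ℕ) (T : Set ℕ) : Prop :=
  ∀ S : Finset ℕ, (∀ l ∈ S, l.Prime ∧ l ≠ p) → (∀ l ∈ S, p ∣ l - 1 → l ∈ T) →
  ∀ (A : Type) [CommRing A] [IsLocalRing A] [IsNoetherianRing A] [TopologicalSpace A],
    IsAdic (maximalIdeal A) → Finite (ResidueField A) → (p : A) ∈ maximalIdeal A →
  ∀ ρ : AbsGal →* GL (Fin 2) A, Continuous ρ → UnramifiedOutside S ρ → ResiduallyUnipotent ρ →
    (IsNilpotent (p : A) → FiniteModNilradical ρ) ∧
    ((∀ a : A, (p : A) * a = 0 → a = 0) → (UnipotentInertia p S ρ ∨ NoTorsion p A) →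
      ∀ g, ρ g = 1)

/-- The linking number `λ l j` of the distinct primes `l` and `j`: the value of the homomorphism
`χ j : (ℤ/j)ˣ → ℤ/p` at the class of `l` (and `0` if `j` divides `l`, in particular if `l = j`). -/
noncomputable def linking {p : ℕ} (χ : ∀ j : ℕ, (ZMod j)ˣ →* Multiplicative (ZMod p))
    (l j : ℕ) : ZMod p :=
  open Classical in if h : Nat.Coprime l j then
    Multiplicative.toAdd (χ j (ZMod.unitOfCoprime l h)) else 0

/-- The pairs `(i, j)`, `i ≠ j`, and the indices `i`. -/
abbrev Variables (k : ℕ) : Type := {x : Fin k × Fin k // x.1 ≠ x.2} ⊕ Fin k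

/-- The linking numbers `λ i j`, `i ≠ j`, of the primes `q i` and the classes `u i` of
`(q i - 1) / p` modulo `p`. -/
noncomputable def numbers {p k : ℕ} (χ : ∀ j : ℕ, (ZMod j)ˣ →* Multiplicative (ZMod p))
    (q : Fin k → ℕ) : Variables k → ZMod p :=
  Sum.elim (fun x => linking χ (q x.1.1) (q x.1.2)) fun i => (((q i - 1) / p : ℕ) : ZMod p)

/-- `Criterion k P`: let `p > 2` be a prime and let `q i`, `i < k`, be distinct primes `≡ 1 mod p`. If
the value of `P` at the linking numbers and the `(q i - 1) / p` is not zero in `ℤ/p`, for nontrivial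
homomorphisms `χ (q i)`, then `TameRankTwo p T` holds for the set `T` of the `q i`. -/
def Criterion (k : ℕ) (P : MvPolynomial (Variables k) ℤ) : Prop :=
  ∀ (p : ℕ) [Fact p.Prime], 2 < p → ∀ q : Fin k → ℕ, Function.Injective q →
    (∀ i, (q i).Prime ∧ p ∣ q i - 1) →
    ∀ χ : ∀ j : ℕ, (ZMod j)ˣ →* Multiplicative (ZMod p), (∀ i, ∃ x, χ (q i) x ≠ 1) →
      MvPolynomial.aeval (numbers χ q) P ≠ 0 → TameRankTwo p (Set.range q)

theorem good_of {p : ℕ} [Fact p.Prime] (hp2 : 2 < p) {k : ℕ}
    (χ : ∀ j : ℕ, (ZMod j)ˣ →* Multiplicative (ZMod p))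
    (l : Fin k → ℕ) (hli : Function.Injective l) (hχ : ∀ i, ∃ x, χ (l i) x ≠ 1)
    (hG : ¬ Bad k (N829.QD.dat χ l)) : TameRankTwo p (Set.range l) := by
  have hp2' : p ≠ 2 := by omega
  intro S hS hT A _ _ _ _ hA hfin hpA ρ hρ hur hru
  have hχS : ∀ q ∈ S, p ∣ q - 1 → ∃ x, χ q x ≠ 1 := by
    intro q hq hpq
    obtain ⟨i, rfl⟩ := hT q hq hpq
    exact hχ i
  have hres := Zk38.Tame.residual_of hpA χ l hli hG S hT
  have key := MP_924d78_nt.NoetherianCoefficients.result p hp2' S hS A hA hfin hpA ρ hρ
      (fun P hP h2 τ hτ => hur P hP h2 τ hτ) hru χ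
      (fun q hq => hχS q (mem_filter.1 hq).1 (mem_filter.1 hq).2)
  refine ⟨fun hnil => key.1 (Or.inl hnil)
      (Or.inr (Or.inr fun K _ _ h1 h2 => ⟨(hres K h1 h2).1.1, (hres K h1 h2).1.2 0⟩)),
    fun hnz hU => key.2.2 hnz (Or.inr fun K _ _ h1 h2 => (hres K h1 h2).1) ?_⟩
  rcases hU with h | ⟨h1, h2⟩ | ⟨i1, i2, e, h0, h1, he⟩
  · left
    intro q hq P hP hqP τ hτ
    exact h q (mem_filter.1 hq).1 (mem_filter.1 hq).2 P hP hqP τ hτ
  · exact Or.inr ⟨h1, h2⟩
  · exact Or.inr ⟨i1, fun M hM => Zk38.Tame.noTorsion hp2' hpA h0 h1 he M hM⟩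

/-- **Tame representations of rank two.** For every `k` there is a nonzero integral polynomial `P`
such that `Criterion k P` holds; and for every `δ > 0` and all large `p` the statement `TameRankTwo`
holds for all `k`-tuples of primes `≡ 1 mod p` but a proportion of `δ`. -/
theorem result (k : ℕ) :
    (∃ P : MvPolynomial (Variables k) ℤ, P ≠ 0 ∧ Criterion k P) ∧
    ∀ δ : ℝ, 0 < δ → ∃ p₀ : ℕ, ∀ (p : ℕ) [Fact p.Prime], p₀ ≤ p →
      Most p δ (TameRankTwo p) k ∅ := by
  obtain ⟨P, hP0, hP⟩ := Zk38.Tame.alg_poly k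
  refine ⟨⟨P, hP0, ?_⟩, fun δ hδ => ?_⟩
  · intro p _ hp2 q hq hq1 χ hχ hne
    exact good_of hp2 χ q hq hχ (Zk38.Tame.not_bad_of hP χ q (fun i => (hq1 i).1) hne)
  · exact Zk38.Tame.most hP0 hP TameRankTwo
      (fun p _ hp2 χ k l hli _ hχ hb => good_of hp2 χ l hli hχ hb) δ hδ

end Pool.Agent.Results.MP_924d78_nt.RankTwoMostTuples
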