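import Pool.Agent.Zk42.SQ.M12
import Pool.Agent.Zk44.SQ5.Chain

/-!
# Tame representations with square-zero inertia at five primes, in all dimensions

For `k ≥ 4` primes `q ≡ 1 mod p` the Galois group of the maximal `p`-extension of `ℚ` unramified
outside these primes is infinite (Golod and Shafarevich).

Theorem. Let `k ≤ 5` and `δ > 0`. For all large primes `p` the following holds. For all primes
`q₁ ≡ 1 mod p` but a proportion of at most `δ`, …, for all primes `q_k ≡ 1 mod p` but a proportion of
at most `δ`, the set `T = {q₁, …, q_k}` has the following property `SquareZeroTame p T`. Let `A` be any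
Noetherian local ring of residue characteristic `p` with its adic topology, `n ≥ 0`, and let
`ρ : Gal(ℚbar/ℚ) → GL_n(A)` be continuous, unramified outside `T` and (finitely many) primes
`≢ 0, 1 mod p`, and unipotent modulo the maximal ideal. If `(ρ τ - 1) ^ 2 = 0` for all `τ` in the
inertia groups at the primes in `T`, then `ρ` has finite image, and `ρ` is trivial if `p` is not a zero
divisor in `A`.

More precisely, there is a nonzero integral polynomial `P` in the linking numbers `λ i j`, `i ≠ j`, and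
the numbers `u i`, which depends neither on `p` nor on the dimension `n`, such that `P(λ, u) ≠ 0` in
`ℤ/p` implies `SquareZeroTame p {q 1, …, q 5}`. Here `p` is any prime, the `q i` are distinct
primes such that all `q i - 1` are exactly divisible by the same power `p ^ m`, `m ≥ 1`, and `u i` is
the class of `(q i - 1) / p ^ m`.

Proof. (1) Let `τ i` generate tame inertia at `q i`, `N i = ρ(τ i) - 1`, so `N i ^ 2 = 0`, and let `M d`
be the `A`-submodule of the matrices generated by the products of at least `d` of the `N i`. Every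
`ρ(g) - 1` is in `M 1`, and for a Frobenius element `σ i` it is congruent to
`∑ j, λ i j * N j` modulo `M 2 + p * M 1`. The relation `σ i * τ i * σ i⁻¹ = τ i ^ q i` becomes
`(ρ(σ i) - 1) * N i - N i * (ρ(σ i) - 1) = (q i - 1) * N i * ρ(σ i)`, since `N i ^ 2 = 0`.
(2) If the algebra over `ℤ/p` with the generators `x i` and the relations `x i ^ 2 = 0`,
`∑ j, λ i j * (x j * x i - x i * x j) = 0` is zero in degree `d`, it follows that
`M d ⊆ M (d + 1) + p * M (d - 1)`, and similarly `M (d + j) ⊆ M (d + j + 1) + p * M (d + j - 1)`. As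
the `N i` generate a nilpotent algebra modulo the maximal ideal, `M d ⊆ p * M (d - 1)`, and one gets
the second algebra, with the relations `∑ j, λ i j * (x j * x i - x i * x j) = u i * x i` and
`x i ^ 2 = 0`: the relations hold for the words in the matrices `N i / p ^ m`, in a suitable sense. If
this algebra is zero in positive degrees, then a power of `p` kills `M 1`, which is therefore finite up
to the finitely many products of the `N i`.
(3) For generic `λ` and `u` the two algebras are zero in the degree `7`, and in positive degrees. By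
the openness of these conditions it is sufficient to have one example over some prime field, and
`λ i j = 1` for `j = i + 1, i + 2, i + 3 mod 5`, `λ i j = 0` otherwise, `u i = 1` over `ℤ/3` is one; the
first algebra has the Hilbert series `1 + 5 t + 15 t² + 35 t³ + 65 t⁴ + 85 t⁵ + 25 t⁶`.
(4) By Schwartz-Zippel the proportion of the systems with `P = 0` is `O(1/p)`, and the linking numbers
of a new prime with the given ones are equidistributed up to scaling
(`Pool.Agent.Q202.QT.densN`, Chebotarev).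
-/

set_option autoImplicit false

open NumberField IsLocalRing

namespace Pool.Agent.Results.MP_924d78_nt.SquareZeroInertia

open Pool.Agent.Zk38.Tame (Most)
open Pool.Agent.W569.TG (lk)

/-- the absolute Galois group of `ℚ`, with the Krull topology -/
abbrev AbsGal : Type := Gal(AlgebraicClosure ℚ/ℚ)

/-- `τ` lies in the inertia group at the ideal `P` of the ring of all algebraic integers. -/
def InInertia (P : Ideal (𝓞 (AlgebraicClosure ℚ))) (τ : AbsGal) : Prop :=
  ∀ x : 𝓞 (AlgebraicClosure ℚ), τ • x - x ∈ P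

section
variable {A : Type} [CommRing A] {n : ℕ}

/-- `ρ` is trivial on the inertia groups at all maximal ideals which contain no `l ∈ S`. -/
def UnramifiedOutside (S : Finset ℕ) (ρ : AbsGal →* GL (Fin n) A) : Prop :=
  ∀ P : Ideal (𝓞 (AlgebraicClosure ℚ)), P.IsMaximal →
    (∀ l ∈ S, (l : 𝓞 (AlgebraicClosure ℚ)) ∉ P) → ∀ τ, InInertia P τ → ρ τ = 1

/-- Every `ρ g` is unipotent modulo the maximal ideal: some power of `ρ g - 1` has all entries in
the maximal ideal. -/
def ResiduallyUnipotent [IsLocalRing A] (ρ : AbsGal →* GL (Fin n) A) : Prop :=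
  ∀ g, ∃ M : ℕ, ∀ i j, (((ρ g : Matrix (Fin n) (Fin n) A) - 1) ^ M) i j ∈ maximalIdeal A

/-- `(ρ τ - 1) ^ 2 = 0` for all `τ` in the inertia groups at the maximal ideals which contain some
`l ∈ S` with `p ∣ l - 1`. -/
def InertiaSquareZero (p : ℕ) (S : Finset ℕ) (ρ : AbsGal →* GL (Fin n) A) : Prop :=
  ∀ l ∈ S, p ∣ l - 1 → ∀ P : Ideal (𝓞 (AlgebraicClosure ℚ)), P.IsMaximal →
    (l : 𝓞 (AlgebraicClosure ℚ)) ∈ P → ∀ τ, InInertia P τ →
      ((ρ τ : Matrix (Fin n) (Fin n) A) - 1) ^ 2 = 0

end

/-- `SquareZeroTame p T`: for all finite sets `S` of primes `l ≠ p` whose members congruent to `1`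
modulo `p` are in `T`, all Noetherian local rings `A` of residue characteristic `p`, all `n`, and all
continuous `ρ : Gal(ℚbar/ℚ) → GL_n(A)`, unramified outside `S`, unipotent modulo the maximal ideal and
such that `(ρ τ - 1) ^ 2 = 0` for all `τ` in the inertia groups at the primes in `S` congruent to `1`
modulo `p`: the image of `ρ` is finite, and `ρ` is trivial if `p` is not a zero divisor in `A`. -/
def SquareZeroTame (p : ℕ) (T : Set ℕ) : Prop :=
  ∀ S : Finset ℕ, (∀ l ∈ S, l.Prime ∧ l ≠ p) → (∀ l ∈ S, p ∣ l - 1 → l ∈ T) →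
  ∀ (A : Type) [CommRing A] [IsLocalRing A] [IsNoetherianRing A] [TopologicalSpace A],
    IsAdic (maximalIdeal A) → (p : A) ∈ maximalIdeal A →
  ∀ (n : ℕ) (ρ : AbsGal →* GL (Fin n) A), Continuous ρ → UnramifiedOutside S ρ →
    ResiduallyUnipotent ρ → InertiaSquareZero p S ρ →
    (Set.range ρ).Finite ∧ ((∀ a : A, (p : A) * a = 0 → a = 0) → ∀ g, ρ g = 1)

/-- The linking number `λ l j` of the distinct primes `l` and `j`: the value of the homomorphism
`χ j : (ℤ/j)ˣ → ℤ/p` at the class of `l` (and `0` if `j` divides `l`, in particular if `l = j`). -/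
noncomputable def linking {p : ℕ} (χ : ∀ j : ℕ, (ZMod j)ˣ →* Multiplicative (ZMod p))
    (l j : ℕ) : ZMod p :=
  open Classical in if h : Nat.Coprime l j then
    Multiplicative.toAdd (χ j (ZMod.unitOfCoprime l h)) else 0

/-- The pairs `(i, j)`, `i ≠ j`, and the indices `i`. -/
abbrev Variables (k : ℕ) : Type := {x : Fin k × Fin k // x.1 ≠ x.2} ⊕ Fin k

/-- The linking numbers `λ i j`, `i ≠ j`, of the primes `q i` and the classes `u i` modulo `p` of
`(q i - 1) / p ^ m`. -/
noncomputable def numbers {p k : ℕ} (m : ℕ) (χ : ∀ j : ℕ, (ZMod j)ˣ →* Multiplicative (ZMod p))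
    (q : Fin k → ℕ) : Variables k → ZMod p :=
  Sum.elim (fun x => linking χ (q x.1.1) (q x.1.2)) fun i => (((q i - 1) / p ^ m : ℕ) : ZMod p)

/-- `Criterion k P`: let `p` be a prime, `m ≥ 1`, and let `q i`, `i < k`, be distinct primes such that
`p ^ m` divides all `q i - 1` and `p ^ (m + 1)` divides no `q i - 1`. If the value of `P` at the linking
numbers and the `u i` is not zero in `ℤ/p`, for nontrivial homomorphisms `χ (q i)`, then
`SquareZeroTame p T` holds for the set `T` of the `q i`. -/
def Criterion (k : ℕ) (P : MvPolynomial (Variables k) ℤ) : Prop :=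
  ∀ (p : ℕ) [Fact p.Prime] (m : ℕ), 1 ≤ m → ∀ q : Fin k → ℕ, Function.Injective q →
    (∀ i, (q i).Prime ∧ p ^ m ∣ q i - 1 ∧ ¬ p ^ (m + 1) ∣ q i - 1) →
    ∀ χ : ∀ j : ℕ, (ZMod j)ˣ →* Multiplicative (ZMod p), (∀ i, ∃ x, χ (q i) x ≠ 1) →
      MvPolynomial.aeval (numbers m χ q) P ≠ 0 → SquareZeroTame p (Set.range q)

theorem tame_of {p : ℕ} [Fact p.Prime] {k : ℕ}
    (χ : ∀ j : ℕ, (ZMod j)ˣ →* Multiplicative (ZMod p)) {q : Fin k → ℕ}
    (hq : Function.Injective q) (hχ : ∀ i, ∃ x, χ (q i) x ≠ 1)
    {m : ℕ} (hm : 1 ≤ m) {c : Fin k → ℕ} (hc : ∀ i, q i - 1 = p ^ m * c i)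
    (hcp : ∀ i, ¬ p ∣ c i) {dd D : ℕ} (hd : 2 ≤ dd)
    (hL : Zk42.SQ.Nil (fun i j => lk χ (q i) (q j)) dd) (hD : 1 ≤ D)
    (hT : Zk42.SQ.Triv (fun i j => lk χ (q i) (q j)) (fun i => (c i : ZMod p)) D) :
    SquareZeroTame p (Set.range q) := by
  intro S hS hT' A _ _ _ _ hA hpA n ρ hρ hur hru hsq
  exact Zk42.SQ.glue χ hq hχ hm hc hcp hd hL hD hT hS hT' hA hpA hρ
    (fun P hP h2 τ hτ => hur P hP h2 τ hτ) hru
    (fun l hl hpl P hP hlP τ hτ => hsq l hl hpl P hP hlP τ hτ)

theorem tame_anti {p : ℕ} {T T' : Set ℕ} (h : T ⊆ T') (hT : SquareZeroTame p T') :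
    SquareZeroTame p T := fun S h1 h2 => hT S h1 fun l hl hpl => h (h2 l hl hpl)

/-- **Square-zero tame inertia in all dimensions.** There is a nonzero integral polynomial `P` such
that `Criterion 5 P` holds; and for every `k ≤ 5`, `δ > 0` and all large `p` the statement
`SquareZeroTame` holds for all `k`-tuples of primes `≡ 1 mod p` but a proportion of `δ`. -/
theorem result :
    (∃ P : MvPolynomial (Variables 5) ℤ, P ≠ 0 ∧ Criterion 5 P) ∧
    ∀ k ≤ 5, ∀ δ : ℝ, 0 < δ → ∃ p₀ : ℕ, ∀ (p : ℕ) [Fact p.Prime], p₀ ≤ p →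
      Most p δ (SquareZeroTame p) k ∅ := by
  obtain ⟨dd, D, P, hd, hD, hP0, hP⟩ := Zk42.SQ.alg_poly Zk44.SQ5.five
  refine ⟨⟨P, hP0, ?_⟩, fun k hk => Zk42.SQ.most_le hk (fun p => SquareZeroTame p)
    (fun p T T' h hT => tame_anti h hT) fun δ hδ => ?_⟩
  · intro p hpF m hm q hq hq1 χ hχ hne
    obtain ⟨h1, h2, h3⟩ := hP p (fun i j => lk χ (q i) (q j))
      (fun i => (((q i - 1) / p ^ m : ℕ) : ZMod p)) (fun i => N829.QD.lk_self χ (hq1 i).1) hne
    refine tame_of χ hq hχ hm (c := fun i => (q i - 1) / p ^ m)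
      (fun i => (Nat.mul_div_cancel' (hq1 i).2.1).symm) (fun i hi => ?_) hd h2 hD h3
    exact h1 i ((ZMod.natCast_eq_zero_iff _ _).2 hi)
  · exact Zk42.SQ.most (dd := dd) (D := D) hP0 hP SquareZeroTame
      (fun p _ hp2 χ k l hli hl hχ hb => by
        obtain ⟨a1, a2, a3, a4⟩ := Zk42.SQ.of_not_bad χ l hl hb
        exact tame_of χ hli hχ le_rfl a1 a2 hd a3 hD a4) δ hδ

end Pool.Agent.Results.MP_924d78_nt.SquareZeroInertia
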