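import Pool.Agent.Zk42.SP.C9

/-!
# Tame representations with symplectic transvections as inertia, in all dimensions

For `k ≥ 4` primes `q ≡ 1 mod p` the Galois group of the maximal `p`-extension of `ℚ` unramified
outside these primes is infinite (Golod and Shafarevich).

Theorem. Let `k ≥ 0` and `δ > 0`. For all large primes `p` the following holds. For all primes
`q₁ ≡ 1 mod p` but a proportion of at most `δ`, …, for all primes `q_k ≡ 1 mod p` but a proportion of
at most `δ`, the set `T = {q₁, …, q_k}` has the following property `SymplecticTame p T`. Let `A` be any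
Noetherian local ring of residue characteristic `p` with its adic topology, `n ≥ 0`, `J` an invertible
alternating `n × n` matrix over `A`, and let `ρ : Gal(ℚbar/ℚ) → GL_n(A)` be continuous, unramified
outside `T` and (finitely many) primes `≢ 0, 1 mod p`, and unipotent modulo the maximal ideal. If the
inertia groups at the primes in `T` act by symplectic transvections, i.e. the matrices
`J * (ρ τ - 1)` are symmetric of rank at most one, then `ρ` has finite image, and `ρ` is trivial if `p`
is not a zero divisor in `A`.

More precisely, for every `k` there is a nonzero integral polynomial `P` in the linking numbers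
`λ i j`, `i ≠ j`, and the levels `u i`, which depends neither on `p` nor on the dimension `n`, such that
`P(λ, u) ≠ 0` in `ℤ/p` implies `SymplecticTame p {q 1, …, q k}`, for all `p > 2`. Here
`q i ≡ 1 mod p` are any distinct primes, and `u i` is the class of `(q i - 1) / p ^ m` for the largest
`m` with `p ^ m ∣ q i - 1`.

Proof. (1) Let `τ i` generate tame inertia at `q i`, let `v i` be vectors with
`ρ(τ i) x = x + ⟨v i, x⟩ v i` over an algebraically closed field `K ⊇ A / 𝔭`, and `S i j = ⟨v i, v j⟩`
their Gram matrix. We claim that `S = 0`. Choose a valuation ring `V` of `K` which dominates the image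
of `A`; the `S i j` have positive valuation since `ρ(τ i τ j)` has trace `n - S i j ^ 2`. If `S ≠ 0`,
let `s` be an entry of maximal absolute value. On the `V`-lattice spanned by the `v i` (modulo the
radical of the form) the group acts trivially modulo `s`, and the relations
`[σ i, τ i] = τ i ^ (q i - 1)`, `σ i ≡ ∏ τ j ^ λ i j` modulo commutators, give the equations
`2 ∑ j, λ i j * S' i j * v j + u' i * v i = 0` for the reductions of `S' = S / s`, where `u' i = u i`
or `u' i = 0`; this is a nonzero solution of the equations
`2 ∑ j, λ i j * S i j * S j l + u i * S i l = 0` for an alternating matrix `S` over a field of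
characteristic `p`.
(2) For generic `λ` these equations have no nonzero alternating solutions, for all values of `u`.
It is sufficient to prove this for algebraically independent `λ i j` over a field of characteristic
zero. By differentiating the equations, the vectors `(∑ j, μ i j * S i j * v j)_i`, for arbitrary
`μ`, are the images of the derivatives of `S` under a linear map. These derivatives are alternating
matrices supported on the support of `S`, and orthogonal to the alternating matrices `c` with the same
support and `∑ j, c i j * v j = 0`. Hence the dimension of the space of the vectors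
`(∑ j, μ i j * S i j * v j)_i` is at most the dimension of its subspace of the vectors
`(∑ j, c i j * v j)_i` with alternating `c`. So the two spaces are equal, but this is false: if
`S a b ≠ 0`, then the vector `v b` at the place `a` is in the first space, but the elements `x` of the
second one satisfy `∑ i, x i ∘ v i = 0` in the symmetric square.
(3) Hence `(ρ(τ i) - 1) (ρ(τ j) - 1)` is nilpotent for all `i, j`, and the image of `ρ` is a finitely
generated solvable group with torsion factors.
(4) By Schwartz-Zippel the proportion of the systems with `P = 0` is `O(1/p)`, and the linking numbers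
of a new prime with the given ones are equidistributed up to scaling
(`Pool.Agent.Q202.QT.densN`, Chebotarev).
-/

set_option autoImplicit false

open NumberField IsLocalRing

namespace Pool.Agent.Results.MP_924d78_nt.SymplecticTransvections

open Pool.Agent.Zk38.Tame (Most)
open Pool.Agent.W569.TG (lk)

/-- the absolute Galois group of `ℚ`, with the Krull topology -/
abbrev AbsGal : Type := Gal(AlgebraicClosure ℚ/ℚ)

/-- `τ` lies in the inertia group at the ideal `P` of the ring of all algebraic integers. -/
def InInertia (P : Ideal (𝓞 (AlgebraicClosure ℚ))) (τ : AbsGal) : Prop :=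
  ∀ x : 𝓞 (AlgebraicClosure ℚ), τ • x - x ∈ P

section
variable {A : Type} [CommRing A] {n : ℕ}

/-- `ρ` is trivial on the inertia groups at all maximal ideals which contain no `l ∈ S`. -/
def UnramifiedOutside (S : Finset ℕ) (ρ : AbsGal →* GL (Fin n) A) : Prop :=
  ∀ P : Ideal (𝓞 (AlgebraicClosure ℚ)), P.IsMaximal →
    (∀ l ∈ S, (l : 𝓞 (AlgebraicClosure ℚ)) ∉ P) → ∀ τ, InInertia P τ → ρ τ = 1

/-- Every `ρ g` is unipotent modulo the maximal ideal: some power of `ρ g - 1` has all entries in
the maximal ideal. -/
def ResiduallyUnipotent [IsLocalRing A] (ρ : AbsGal →* GL (Fin n) A) : Prop :=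
  ∀ g, ∃ M : ℕ, ∀ i j, (((ρ g : Matrix (Fin n) (Fin n) A) - 1) ^ M) i j ∈ maximalIdeal A

/-- `M` is a symplectic transvection (or the identity) for the alternating form given by `J`: the
matrix `J * (M - 1)` is symmetric and its `2 × 2` minors vanish. If `A` is a field, this means that
`M x = x + c * ⟨v, x⟩ v` for a vector `v` and a scalar `c`. -/
def IsTransvection (J M : Matrix (Fin n) (Fin n) A) : Prop :=
  (∀ i j, (J * (M - 1)) j i = (J * (M - 1)) i j) ∧
    ∀ i j a b, (J * (M - 1)) i j * (J * (M - 1)) a b = (J * (M - 1)) i b * (J * (M - 1)) a j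

/-- `ρ τ` is a symplectic transvection for all `τ` in the inertia groups at the maximal ideals which
contain some `l ∈ S` with `p ∣ l - 1`. -/
def TransvectionInertia (p : ℕ) (S : Finset ℕ) (J : Matrix (Fin n) (Fin n) A)
    (ρ : AbsGal →* GL (Fin n) A) : Prop :=
  ∀ l ∈ S, p ∣ l - 1 → ∀ P : Ideal (𝓞 (AlgebraicClosure ℚ)), P.IsMaximal →
    (l : 𝓞 (AlgebraicClosure ℚ)) ∈ P → ∀ τ, InInertia P τ →
      IsTransvection J (ρ τ : Matrix (Fin n) (Fin n) A)

end

/-- `SymplecticTame p T`: for all finite sets `S` of primes `l ≠ p` whose members congruent to `1`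
modulo `p` are in `T`, all Noetherian local rings `A` of residue characteristic `p`, all `n`, all
invertible alternating `n × n` matrices `J` over `A` (note that `2` is a unit if `p ≠ 2`), and all
continuous `ρ : Gal(ℚbar/ℚ) → GL_n(A)`, unramified outside `S`, unipotent modulo the maximal ideal and
such that the inertia groups at the primes in `S` congruent to `1` modulo `p` act by symplectic
transvections: the image of `ρ` is finite, and `ρ` is trivial if `p` is not a zero divisor in `A`. -/
def SymplecticTame (p : ℕ) (T : Set ℕ) : Prop :=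
  ∀ S : Finset ℕ, (∀ l ∈ S, l.Prime ∧ l ≠ p) → (∀ l ∈ S, p ∣ l - 1 → l ∈ T) →
  ∀ (A : Type) [CommRing A] [IsLocalRing A] [IsNoetherianRing A] [TopologicalSpace A],
    IsAdic (maximalIdeal A) → (p : A) ∈ maximalIdeal A →
  ∀ (n : ℕ) (J : Matrix (Fin n) (Fin n) A), IsUnit J.det → (∀ i j, J j i = -J i j) →
  ∀ ρ : AbsGal →* GL (Fin n) A, Continuous ρ → UnramifiedOutside S ρ → ResiduallyUnipotent ρ →
    TransvectionInertia p S J ρ →
    (Set.range ρ).Finite ∧ ((∀ a : A, (p : A) * a = 0 → a = 0) → ∀ g, ρ g = 1)

/-- The linking number `λ l j` of the distinct primes `l` and `j`: the value of the homomorphism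
`χ j : (ℤ/j)ˣ → ℤ/p` at the class of `l` (and `0` if `j` divides `l`, in particular if `l = j`). -/
noncomputable def linking {p : ℕ} (χ : ∀ j : ℕ, (ZMod j)ˣ →* Multiplicative (ZMod p))
    (l j : ℕ) : ZMod p :=
  open Classical in if h : Nat.Coprime l j then
    Multiplicative.toAdd (χ j (ZMod.unitOfCoprime l h)) else 0

/-- The pairs `(i, j)`, `i ≠ j`, and the indices `i`. -/
abbrev Variables (k : ℕ) : Type := {x : Fin k × Fin k // x.1 ≠ x.2} ⊕ Fin k

/-- The linking numbers `λ i j`, `i ≠ j`, of the primes `q i` and the classes `u i` modulo `p` of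
`(q i - 1) / p ^ m`, where `p ^ m` is the largest power of `p` which divides `q i - 1`. -/
noncomputable def numbers {p k : ℕ} (χ : ∀ j : ℕ, (ZMod j)ˣ →* Multiplicative (ZMod p))
    (q : Fin k → ℕ) : Variables k → ZMod p :=
  Sum.elim (fun x => linking χ (q x.1.1) (q x.1.2)) fun i =>
    (((q i - 1) / p ^ padicValNat p (q i - 1) : ℕ) : ZMod p)

/-- `Criterion k P`: let `p > 2` be a prime and let `q i`, `i < k`, be distinct primes `≡ 1 mod p`. If
the value of `P` at the linking numbers and the `u i` is not zero in `ℤ/p`, for nontrivial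
homomorphisms `χ (q i)`, then `SymplecticTame p T` holds for the set `T` of the `q i`. -/
def Criterion (k : ℕ) (P : MvPolynomial (Variables k) ℤ) : Prop :=
  ∀ (p : ℕ) [Fact p.Prime], 2 < p → ∀ q : Fin k → ℕ, Function.Injective q →
    (∀ i, (q i).Prime ∧ p ∣ q i - 1) →
    ∀ χ : ∀ j : ℕ, (ZMod j)ˣ →* Multiplicative (ZMod p), (∀ i, ∃ x, χ (q i) x ≠ 1) →
      MvPolynomial.aeval (numbers χ q) P ≠ 0 → SymplecticTame p (Set.range q)

theorem tame_of {p : ℕ} [Fact p.Prime] (hp2 : 2 < p) {k : ℕ}
    (χ : ∀ j : ℕ, (ZMod j)ˣ →* Multiplicative (ZMod p))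
    (q : Fin k → ℕ) (hq : Function.Injective q) (hχ : ∀ i, ∃ x, χ (q i) x ≠ 1)
    (h : Zk42.SP.NoG (fun i j => lk χ (q i) (q j)) (fun i => Zk42.SP.lev p (q i))) :
    SymplecticTame p (Set.range q) := by
  intro S hS hT A _ _ _ _ hA hpA n J hJ hJa ρ hρ hur hru htv
  exact Zk42.SP.glue (by omega) χ hq hχ h hS hT hA hpA hJ hJa hρ
    (fun P hP h2 τ hτ => hur P hP h2 τ hτ) hru
    (fun l hl hpl P hP hlP τ hτ => htv l hl hpl P hP hlP τ hτ)

/-- **Symplectic transvections as tame inertia.** For every `k` there is a nonzero integral
polynomial `P` such that `Criterion k P` holds; and for every `δ > 0` and all large `p` the statement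
`SymplecticTame` holds for all `k`-tuples of primes `≡ 1 mod p` but a proportion of `δ`. -/
theorem result (k : ℕ) :
    (∃ P : MvPolynomial (Variables k) ℤ, P ≠ 0 ∧ Criterion k P) ∧
    ∀ δ : ℝ, 0 < δ → ∃ p₀ : ℕ, ∀ (p : ℕ) [Fact p.Prime], p₀ ≤ p →
      Most p δ (SymplecticTame p) k ∅ := by
  obtain ⟨P, hP0, hP⟩ := Zk42.SP.alg_poly k
  refine ⟨⟨P, hP0, ?_⟩, fun δ hδ => ?_⟩
  · intro p _ hp2 q hq hq1 χ hχ hne
    exact tame_of hp2 χ q hq hχ (hP p (fun i j => lk χ (q i) (q j))
      (fun i => Zk42.SP.lev p (q i)) (fun i => N829.QD.lk_self χ (hq1 i).1) hne).2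
  · exact Zk42.SP.most hP0 hP SymplecticTame
      (fun p _ hp2 χ k l hli hl hχ hb => tame_of hp2 χ l hli hχ
        (Zk42.SP.noG_of_not_bad χ l hl hb)) δ hδ

end Pool.Agent.Results.MP_924d78_nt.SymplecticTransvections
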